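import Mathlib
import Pool.Agent.K3h2.MF.Cons
import Pool.Agent.K3h2.MF.Ex

/-!
# A quadratic analogue of the Farey determinant property: the determinants are unbounded

For `n ≥ 1` the list `L_n` consists of the rows `(a, b, c)` of the equations `a x² + b x + c = 0`:
every rational number `p / q > 0` in lowest terms, `1 ≤ p, q ≤ n`, is entered twice as `(0, q, -p)`;
every primitive `(a, b, c)` with `1 ≤ a ≤ n`, `|b|, |c| ≤ n` is entered once for each of its positive
irrational roots; `(0, 1, 0)` (root `0`) and `(0, 0, 1)` (root `∞`) are the end points. The list is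
ordered by increasing root.

Q1 (Mahler) asks whether the determinant of any three consecutive rows is `0`, `1` or `-1`. The
negative answer is in the starting files `OrderSeven`, `DeterminantTwo`, `MahlerFarey` of this folder
(`n = 7`, determinant `-2`). New: the determinants are unbounded: for every `m ≥ 2` and every `N ≥ m² (m + 1)`, with
`n = m N + 1`, the three rows

* `(1, -(N + m + 1), m N + 1)`
* `(m, -(m N + 1), -((m - 1) N + m²))`
* `(m - 1, -(m - 1) N, -((m - 1) N + m² - m + 1))`

are consecutive in `L_n`, and their determinant is `-m`. For `m = 2` and `N = 12` (`n = 25`) they are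
`(1, -15, 25)`, `(2, -25, -16)`, `(1, -12, -15)`.
-/

set_option autoImplicit false

namespace Pool.Agent.Results.MP_ca606e_nt.UnboundedDeterminants

open Pool.Agent.K3h2.MF

/-- **Main theorem.** -/
theorem result :
    -- the list of order `n` exists and is unique
    (∀ n : ℕ, ∃! L : List Row, IsList n L) ∧
    -- three consecutive rows of determinant `-m`
    (∀ m N : ℕ, 2 ≤ m → m ^ 2 * (m + 1) ≤ N → ∀ L : List Row, IsList (m * N + 1) L →
      ∃ x y z : EReal,
        [⟨1, -(N + m + 1), m * N + 1, x⟩,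
         ⟨m, -(m * N + 1), -((m - 1) * N + m ^ 2), y⟩,
         ⟨m - 1, -((m - 1) * N), -((m - 1) * N + (m ^ 2 - m + 1)), z⟩] <:+: L ∧
        det ⟨1, -(N + m + 1), m * N + 1, x⟩
          ⟨m, -(m * N + 1), -((m - 1) * N + m ^ 2), y⟩
          ⟨m - 1, -((m - 1) * N), -((m - 1) * N + (m ^ 2 - m + 1)), z⟩ = -m) ∧
    -- the determinants are not bounded
    (∀ C : ℤ, ∃ n : ℕ, 1 ≤ n ∧ ∀ L : List Row, IsList n L →
      ∃ r s u : Row, [r, s, u] <:+: L ∧ C < |det r s u|) ∧
    -- the answer to Q1 is negative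
    ¬ (∀ n : ℕ, 1 ≤ n → ∀ L : List Row, IsList n L → ∀ r s u : Row, [r, s, u] <:+: L →
      det r s u = 0 ∨ det r s u = 1 ∨ det r s u = -1) := by
  have main : ∀ m N : ℕ, 2 ≤ m → m ^ 2 * (m + 1) ≤ N → ∀ L : List Row, IsList (m * N + 1) L →
      ∃ x y z : EReal, [R1 m N x, R2 m N y, R3 m N z] <:+: L ∧
        det (R1 m N x) (R2 m N y) (R3 m N z) = -m := by
    intro m N hm hN L hL
    obtain ⟨x, y, z, h⟩ := consecutive hm hN hL
    exact ⟨x, y, z, h, det_rows m N x y z⟩
  refine ⟨fun n => ?_, main, ?_, ?_⟩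
  · obtain ⟨L, hL⟩ := exists_list n
    exact ⟨L, hL, fun L' hL' => unique_list hL' hL⟩
  · intro C
    obtain ⟨m, hm⟩ : ∃ m : ℕ, m = C.natAbs + 2 := ⟨_, rfl⟩
    refine ⟨m * (m ^ 2 * (m + 1)) + 1, by omega, fun L hL => ?_⟩
    obtain ⟨x, y, z, h, hd⟩ := main m (m ^ 2 * (m + 1)) (by omega) le_rfl L hL
    refine ⟨_, _, _, h, ?_⟩
    rw [hd, abs_neg, abs_of_nonneg (by positivity)]
    omega
  · intro h
    obtain ⟨L, hL⟩ := exists_list (2 * 12 + 1)
    obtain ⟨x, y, z, h1, hd⟩ := main 2 12 le_rfl (by norm_num) L hL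
    have h2 := h (2 * 12 + 1) (by norm_num) L hL _ _ _ h1
    rw [hd] at h2
    norm_num at h2

end Pool.Agent.Results.MP_ca606e_nt.UnboundedDeterminants
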